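import Mathlib
import Pool.Agent.Helper344.SBForce5

/-!
# Saturated bounding sets: the forcing construction with prescribed avoidance

The construction of `Pool.Agent.Helper344.SBForce5` produces oracles of hyperimmune-free degree; here
they are moreover made to compute no element of a given closed class without computable elements,
and to be different from countably many given sets.
-/

set_option autoImplicit false

namespace Pool.Agent.Y785.SB

open Pool.Agent.Helper344
open Pool.Agent.Helper344.Blum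
open Pool.Agent.Helper344.SB
open Nat.Partrec (Code)

/-- closed classes of functions: non-membership is decided by finitely many values -/
def Cl (S : Set (ℕ → ℕ)) : Prop :=
  ∀ h, h ∉ S → ∃ N, ∀ h' : ℕ → ℕ, (∀ n < N, h' n = h n) → h' ∉ S

/-- a functional is forced not to compute an element of a closed class without computable
elements -/
theorem exists_avoid (c : Cond) {F : (ℕ → Bool) → ℕ →. ℕ} (hF : IsFunctional F)
    (S : Set (ℕ → ℕ)) (hcl : Cl S) (hS : ∀ h ∈ S, ¬ Computable h) :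
    ∃ c' : Cond, Ref c c' ∧ ((∃ m, ∀ X ∈ c'.C, ¬ (F X m).Dom) ∨
      (∃ g : ℕ → ℕ, Computable g ∧ ∀ X ∈ c'.C, ∀ m, ∃ y ∈ F X m, y ≤ g m)) ∧
      ∀ X ∈ c'.C, ∀ h : ℕ → ℕ, (∀ n, h n ∈ F X n) → h ∉ S := by
  obtain ⟨c₁, h₁, hd⟩ := exists_dom c hF
  rcases hd with ⟨m, hm⟩ | ⟨g, hgc, hg⟩
  · exact ⟨c₁, h₁, Or.inl ⟨m, hm⟩, fun X hX h hh _ => hm X hX (Part.dom_iff_mem.2 ⟨_, hh m⟩)⟩
  · obtain ⟨Ψ, hΨc, hΨ, hmono⟩ := exists_stage hF
    obtain ⟨a, ha⟩ := c₁.good.exists_path
    have hac := c₁.good.mem a ha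
    let Rs : ℕ → Bool := fun n => a n.unpair.2
    have hRc : Computable Rs := hac.comp (cUnp2 Computable.id)
    have hRm : Rs ∈ PathsW c₁.tr := by
      intro i
      have : (fun l => Rs (Nat.pair i l)) = a := by
        funext l
        show a (Nat.pair i l).unpair.2 = a l
        rw [Nat.unpair_pair]
      rw [this]; exact ha
    have hXc : Computable (c₁.G Rs) := c₁.tt.computable hRc
    have hXm : c₁.G Rs ∈ c₁.C := ⟨Rs, hRm, rfl⟩
    have hex : ∀ m, ∃ n, (Ψ (restr (c₁.G Rs) n) m).isSome = true := by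
      intro m
      obtain ⟨y, hy, _⟩ := hg _ hXm m
      obtain ⟨n, hn⟩ := (hΨ _ _ _).1 hy
      exact ⟨n, by rw [hn]; rfl⟩
    let hs : ℕ → ℕ := fun m => (Ψ (restr (c₁.G Rs) (Nat.find (hex m))) m).getD 0
    have hrc : Computable₂ (fun m n : ℕ => restr (c₁.G Rs) n) := by
      have a1 : Computable₂ (fun (_ : ℕ × ℕ) (i : ℕ) => c₁.G Rs i) := hXc.comp Computable.snd
      have := CL.list_map (cRange (Computable.snd (α := ℕ) (β := ℕ))) a1
      exact this
    have hfc : Computable (fun m => Nat.find (hex m)) := by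
      apply CL.find_comp
      have := Primrec.option_isSome.to_comp.comp (hΨc.comp hrc (Computable.fst (α := ℕ) (β := ℕ)))
      exact this
    have hsc : Computable hs := by
      have := Computable.option_getD (hΨc.comp (hrc.comp Computable.id hfc) Computable.id)
        (Computable.const 0)
      exact this
    obtain ⟨N, hN⟩ := hcl hs (fun h => hS hs h hsc)
    have hval : ∀ e, Ψ (restr (c₁.G Rs) (Nat.find (hex e))) e = some (hs e) := by
      intro e
      obtain ⟨y, hy⟩ := Option.isSome_iff_exists.1 (Nat.find_spec (hex e))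
      show _ = some ((Ψ (restr (c₁.G Rs) (Nat.find (hex e))) e).getD 0)
      rw [hy]; rfl
    set B : ℕ := (Finset.range N).sup (fun e => Nat.find (hex e)) with hB
    obtain ⟨U, hU⟩ := c₁.tt.use_restr B
    have hsub := (c₁.lock_ref Rs hRm U).sub
    refine ⟨c₁.lock Rs hRm U, h₁.trans ⟨_, _, c₁.lock_ref Rs hRm U⟩,
      Or.inr ⟨g, hgc, fun X hX => hg X (hsub hX)⟩, ?_⟩
    intro X hX h hh
    obtain ⟨R, hR, rfl, hag⟩ := c₁.lock_C Rs hRm U hX
    have h1 : restr R U = restr Rs U := by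
      apply restr_congr
      intro n hn
      have := hag n.unpair.1 (lt_of_le_of_lt (Nat.unpair_left_le n) hn) n.unpair.2
      rwa [Nat.pair_unpair] at this
    have h2 := hU R Rs h1
    apply hN
    intro e he
    have hle : Nat.find (hex e) ≤ B :=
      Finset.le_sup (f := fun e => Nat.find (hex e)) (Finset.mem_range.2 he)
    have h2' : restr (c₁.G R) (Nat.find (hex e)) = restr (c₁.G Rs) (Nat.find (hex e)) := by
      rw [← restr_take _ hle, h2, restr_take _ hle]
    have h3 : hs e ∈ F (c₁.G R) e := (hΨ _ _ _).2 ⟨Nat.find (hex e), by rw [h2']; exact hval e⟩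
    exact Part.mem_unique (hh e) h3

/-- a given set is forced to be different from the oracle -/
theorem exists_ne (c : Cond) (Z : ℕ → Bool) : ∃ c' : Cond, Ref c c' ∧ Z ∉ c'.C := by
  obtain ⟨a, ha, b, hb, l, hal, hbl⟩ := c.two
  have key : ∀ q ∈ Paths c.tr, q l ≠ Z (c.pos 0 l) → ∃ c' : Cond, Ref c c' ∧ Z ∉ c'.C := by
    intro q hq hne
    let Rs : ℕ → Bool := fun n => q n.unpair.2
    have hRm : Rs ∈ PathsW c.tr := by
      intro i
      have : (fun l => Rs (Nat.pair i l)) = q := by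
        funext l
        show q (Nat.pair i l).unpair.2 = q l
        rw [Nat.unpair_pair]
      rw [this]; exact hq
    refine ⟨c.lock Rs hRm 1, ⟨_, _, c.lock_ref Rs hRm 1⟩, fun hZ => ?_⟩
    have h1 := c.lock_rd Rs hRm 1 hZ (i := 0) (by omega) l
    apply hne
    have h2 : Rs (Nat.pair 0 l) = q l := by
      show q (Nat.pair 0 l).unpair.2 = q l
      rw [Nat.unpair_pair]
    rw [← h2, ← h1]
    rfl
  by_cases h : Z (c.pos 0 l) = false
  · exact key b hb (by rw [hbl, h]; simp)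
  · exact key a ha (by rw [hal]; intro h'; exact h h'.symm)

/-- the forcing construction, with a closed class to be avoided and a list of forbidden sets -/
theorem forcingA {Θ : Type} [Countable Θ] (tr : Θ → List Bool → Bool) (hg : ∀ s, Good (tr s))
    (F : Θ → ℕ → List (ℕ → Bool) → (ℕ → Bool)) (hF : ∀ s k l, F s k l ∈ Paths (tr s))
    (S : ℕ → Set (ℕ → ℕ)) (hcl : ∀ i, Cl (S i)) (hS : ∀ i, ∀ h ∈ S i, ¬ Computable h)
    (Z : ℕ → ℕ → Bool) :
    ∃ X : ℕ → Bool,
      (∀ s, ∃ pos : ℕ → ℕ → ℕ, Computable₂ pos ∧ (∀ i, (fun l => X (pos i l)) ∈ Paths (tr s)) ∧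
        ∀ k N, ∃ m, N ≤ m ∧
          (fun l => X (pos m l)) = F s k ((List.range m).map (fun i l => X (pos i l)))) ∧
      (∀ h, Reduces h X → ∃ g : ℕ → ℕ, Computable g ∧ ∀ n, h n ≤ g n) ∧
      (∀ i h, Reduces h X → h ∉ S i) ∧ ∀ n, X ≠ Z n := by
  obtain ⟨f, hf⟩ := exists_surjective_nat (Option Θ)
  let Q : ℕ → (ℕ → Cond) → Cond → Prop := fun n h c' =>
    (∀ s, f n.unpair.1 = some s → n.unpair.2 = 0 →
      ∃ t, (∃ q, q ∈ Paths t) ∧ c'.tr = joinT t (tr s)) ∧
    (∀ s r, f n.unpair.1 = some s → n.unpair.2 = r + 1 →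
      ∃ m, r.unpair.2 ≤ m ∧ ∀ X ∈ c'.C, (h (Nat.pair n.unpair.1 0 + 1)).odd X m =
        F s r.unpair.1 ((List.range m).map ((h (Nat.pair n.unpair.1 0 + 1)).odd X))) ∧
    ((∃ m, ∀ X ∈ c'.C, ¬ (exφ n X m).Dom) ∨
      (∃ g : ℕ → ℕ, Computable g ∧ ∀ X ∈ c'.C, ∀ m, ∃ y ∈ exφ n X m, y ≤ g m)) ∧
    (∀ X ∈ c'.C, ∀ h : ℕ → ℕ, (∀ k, h k ∈ exφ n.unpair.1 X k) → h ∉ S n.unpair.2) ∧
    Z n ∉ c'.C
  have hidx : ∀ n : ℕ, ∀ r, n.unpair.2 = r + 1 → Nat.pair n.unpair.1 0 + 1 ≤ n := by
    intro n r hr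
    have h1 : Nat.pair n.unpair.1 0 < Nat.pair n.unpair.1 n.unpair.2 :=
      Nat.pair_lt_pair_right _ (by omega)
    rw [Nat.pair_unpair] at h1
    exact h1
  have hA : ∀ n (h h' : ℕ → Cond), (∀ i ≤ n, h i = h' i) → ∀ c, Q n h c → Q n h' c := by
    intro n h h' hag c hc
    refine ⟨hc.1, ?_, hc.2.2⟩
    intro s r hs hr
    obtain ⟨m, hm, hm'⟩ := hc.2.1 s r hs hr
    refine ⟨m, hm, ?_⟩
    rw [← hag _ (hidx n r hr)]
    exact hm'
  have hB : ∀ n (h : ℕ → Cond), (∀ i < n, Ref (h i) (h (i + 1)) ∧ Q i h (h (i + 1))) →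
      ∃ c', Ref (h n) c' ∧ Q n h c' := by
    intro n h hch
    obtain ⟨c₁, h₁, hd, hp, hz⟩ : ∃ c₁, Ref (h n) c₁ ∧
        ((∃ m, ∀ X ∈ c₁.C, ¬ (exφ n X m).Dom) ∨
        (∃ g : ℕ → ℕ, Computable g ∧ ∀ X ∈ c₁.C, ∀ m, ∃ y ∈ exφ n X m, y ≤ g m)) ∧
        (∀ X ∈ c₁.C, ∀ h : ℕ → ℕ, (∀ k, h k ∈ exφ n.unpair.1 X k) → h ∉ S n.unpair.2) ∧
        Z n ∉ c₁.C := by
      obtain ⟨c₀, h₀, hz⟩ := exists_ne (h n) (Z n)
      obtain ⟨c₂, h₂, hd⟩ := exists_dom c₀ (functional_of_index n)
      obtain ⟨c₁, h₁, -, hp⟩ := exists_avoid c₂ (functional_of_index n.unpair.1)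
        (S n.unpair.2) (hcl _) (hS _)
      refine ⟨c₁, h₀.trans (h₂.trans h₁), ?_, hp, fun hc => hz (h₂.sub (h₁.sub hc))⟩
      rcases hd with ⟨m, hm⟩ | ⟨g, hg, hg'⟩
      · exact Or.inl ⟨m, fun X hX => hm X (h₁.sub hX)⟩
      · exact Or.inr ⟨g, hg, fun X hX => hg' X (h₁.sub hX)⟩
    have hpers : ∀ c', Ref c₁ c' → ((∃ m, ∀ X ∈ c'.C, ¬ (exφ n X m).Dom) ∨
        (∃ g : ℕ → ℕ, Computable g ∧ ∀ X ∈ c'.C, ∀ m, ∃ y ∈ exφ n X m, y ≤ g m)) ∧
        (∀ X ∈ c'.C, ∀ h : ℕ → ℕ, (∀ k, h k ∈ exφ n.unpair.1 X k) → h ∉ S n.unpair.2) ∧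
        Z n ∉ c'.C := by
      intro c' hc'
      have hs := hc'.sub
      refine ⟨?_, fun X hX => hp X (hs hX), fun hc => hz (hs hc)⟩
      rcases hd with ⟨m, hm⟩ | ⟨g, hg, hg'⟩
      · exact Or.inl ⟨m, fun X hX => hm X (hs hX)⟩
      · exact Or.inr ⟨g, hg, fun X hX => hg' X (hs hX)⟩
    cases hfn : f n.unpair.1 with
    | none =>
      refine ⟨c₁, h₁, ?_, ?_, hpers c₁ (Ref.refl _)⟩
      · intro s hs; rw [hfn] at hs; exact absurd hs (by simp)
      · intro s r hs; rw [hfn] at hs; exact absurd hs (by simp)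
    | some s =>
      cases hr : n.unpair.2 with
      | zero =>
        obtain ⟨c₂, h₂, htr⟩ := exists_act c₁ (hg s)
        refine ⟨c₂, h₁.trans h₂, ?_, ?_, hpers c₂ h₂⟩
        · intro s' hs' _
          rw [hfn] at hs'
          cases hs'
          exact ⟨c₁.tr, c₁.good.exists_path, htr⟩
        · intro s' r hs' hr'
          rw [hr] at hr'; exact absurd hr' (by omega)
      | succ r =>
        have hle := hidx n r hr
        have hchain : ∀ m i, i ≤ m → m ≤ n → Ref (h i) (h m) := by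
          intro m
          induction m with
          | zero => intro i hi _; have : i = 0 := by omega
                    rw [this]; exact Ref.refl _
          | succ m ih =>
            intro i hi hm
            rcases Nat.lt_or_eq_of_le hi with h3 | h3
            · exact (ih i (by omega) (by omega)).trans (hch m (by omega)).1
            · rw [h3]; exact Ref.refl _
        have ha := hchain n _ hle le_rfl
        have hq := (hch (Nat.pair n.unpair.1 0) (by omega)).2.1 s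
          (by rw [Nat.unpair_pair]; exact hfn) (by rw [Nat.unpair_pair])
        obtain ⟨t, ht, htr⟩ := hq
        obtain ⟨c₂, h₂, m, hm, hm'⟩ := exists_strat (h (Nat.pair n.unpair.1 0 + 1)) c₁
          (ha.trans h₁) htr ht (F s r.unpair.1) (hF s r.unpair.1) r.unpair.2
        refine ⟨c₂, h₁.trans h₂, ?_, ?_, hpers c₂ h₂⟩
        · intro s' _ h0
          rw [hr] at h0; exact absurd h0 (by omega)
        · intro s' r' hs' hr'
          rw [hfn] at hs'
          cases hs'
          rw [hr] at hr'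
          have : r' = r := by omega
          rw [this]
          exact ⟨m, hm, hm'⟩
  obtain ⟨h, hh⟩ := chain Ref baseCond Q hA hB
  · obtain ⟨X, hX⟩ := cond_inter h (fun n => (hh n).1)
    refine ⟨X, ?_, ?_, ?_, ?_⟩
    · intro s
      obtain ⟨i, hi⟩ := hf (some s)
      have h1 := (hh (Nat.pair i 0)).2.1 s (by rw [Nat.unpair_pair]; exact hi)
        (by rw [Nat.unpair_pair])
      obtain ⟨t, ht, htr⟩ := h1
      refine ⟨fun i' l => (h (Nat.pair i 0 + 1)).pos i' (2 * l + 1), ?_, ?_, ?_⟩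
      · have := (h (Nat.pair i 0 + 1)).cpos.comp (Computable.fst (α := ℕ) (β := ℕ))
          (cSucc (cMul2 Computable.snd))
        exact this
      · intro i'
        have h2 := (h (Nat.pair i 0 + 1)).rd_mem (hX _) i'
        rw [htr, joinT_paths] at h2
        exact h2.2
      · intro k N
        have h2 := (hh (Nat.pair i (Nat.pair k N + 1))).2.2.1 s (Nat.pair k N)
          (by rw [Nat.unpair_pair]; exact hi) (by rw [Nat.unpair_pair])
        obtain ⟨m, hm, hm'⟩ := h2
        rw [Nat.unpair_pair] at hm hm'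
        refine ⟨m, hm, ?_⟩
        have h3 := hm' X (hX _)
        simp only [Nat.unpair_pair] at h3
        exact h3
    · rintro g ⟨G, hG, hgG⟩
      obtain ⟨e, he⟩ := functional_index hG
      rcases (hh e).2.2.2.1 with ⟨m, hm⟩ | ⟨b, hb, hb'⟩
      · exact absurd (Part.dom_iff_mem.2 ⟨_, by rw [he]; exact hgG m⟩) (hm X (hX _))
      · refine ⟨b, hb, fun n => ?_⟩
        obtain ⟨y, hy, hyb⟩ := hb' X (hX _) n
        rw [he] at hy
        rw [Part.mem_unique (hgG n) hy]
        exact hyb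
    · rintro i g ⟨G, hG, hgG⟩
      obtain ⟨e, he⟩ := functional_index hG
      have h1 := (hh (Nat.pair e i)).2.2.2.2.1 X (hX _) g (fun k => by
        rw [Nat.unpair_pair]
        dsimp only
        rw [he]
        exact hgG k)
      rw [Nat.unpair_pair] at h1
      exact h1
    · intro n hn
      apply (hh n).2.2.2.2.2
      rw [← hn]
      exact hX _

end Pool.Agent.Y785.SB
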