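import Pool.Agent.Helper344.SBFinal
import Pool.Agent.Y785.SB.Force

/-!
# Saturated bounding sets with prescribed avoidance
-/

set_option autoImplicit false

namespace Pool.Agent.Y785.SB

open Pool.Agent.Helper344
open Pool.Agent.Helper344.Blum
open Pool.Agent.Helper344.SB
open Nat.Partrec (Code)

theorem core (S : ℕ → Set (ℕ → ℕ)) (hcl : ∀ i, Cl (S i)) (hS : ∀ i, ∀ h ∈ S i, ¬ Computable h)
    (Z : ℕ → ℕ → Bool) :
    ∃ X : ℕ → Bool, SaturatedBounding X ∧
      (∀ h, Reduces h X → ∃ g : ℕ → ℕ, Computable g ∧ ∀ n, h n ≤ g n) ∧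
      (∀ i h, Reduces h X → h ∉ S i) ∧ ∀ n, X ≠ Z n := by
  have hc : Countable Idx := countable_idx
  have hm : ∀ i : Idx, ∃ (tr : List Bool → Bool) (F : ℕ → List (ℕ → Bool) → (ℕ → Bool)),
      Good tr ∧ (∀ k s, F k s ∈ Paths tr) ∧
      ∀ (X : ℕ → Bool) (pos : ℕ → ℕ → ℕ), Computable₂ pos →
        (∀ k N, ∃ m, N ≤ m ∧ (fun l => X (pos m l)) =
          F k ((List.range m).map (fun i l => X (pos i l)))) →
        ∃ N : Str ℕ, Th i.1.1 N = i.1.2 ∧ Saturated i.1.1 N ∧ DiagramDec i.1.1 N X := by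
    rintro ⟨⟨L, T⟩, M, hM, S, hTS, hT, htypes⟩
    obtain ⟨tr, F, h1, h2, h3⟩ := model_part L M S hT htypes
    refine ⟨tr, F, h1, h2, fun X pos hpos hs => ?_⟩
    obtain ⟨N, hN⟩ := h3 X pos hpos hs
    exact ⟨N, hN.1.trans hTS, hN.2⟩
  choose tr F hgood hF hN using hm
  obtain ⟨X, h1, h2, h3, h4⟩ := forcingA tr hgood F hF S hcl hS Z
  refine ⟨X, ?_, h2, h3, h4⟩
  intro L M hM S hT htypes
  obtain ⟨pos, hpos, _, hstrat⟩ := h1 ⟨(L, Th L S), M, hM, S, rfl, hT, htypes⟩
  exact hN _ X pos hpos hstrat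

/-- `h` is diagonally noncomputable: `h(e) ≠ φ_e(e)` for all `e`. -/
def DNC (h : ℕ → ℕ) : Prop := ∀ e, h e ∉ Code.eval (Denumerable.ofNat Code e) e

theorem cl_of_isClosed {S : Set (ℕ → ℕ)} (h : IsClosed S) : Cl S := by
  intro f hf
  obtain ⟨I, u, hI, hu⟩ := isOpen_pi_iff.1 h.isOpen_compl f hf
  refine ⟨I.sup id + 1, fun f' hf' => hu ?_⟩
  intro i hi
  have h1 : i ≤ I.sup id := Finset.le_sup (f := id) hi
  rw [hf' i (by omega)]
  exact (hI i hi).2

theorem cl_dnc : Cl {h | DNC h} := by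
  intro f hf
  have : ∃ e, f e ∈ Code.eval (Denumerable.ofNat Code e) e := by
    by_contra hno
    exact hf fun e he => hno ⟨e, he⟩
  obtain ⟨e, he⟩ := this
  refine ⟨e + 1, fun f' hf' h => h e ?_⟩
  rw [hf' e (by omega)]
  exact he

theorem dnc_not_computable {h : ℕ → ℕ} (hh : DNC h) : ¬ Computable h := by
  intro hc
  obtain ⟨c, hc'⟩ := Code.exists_code.1 (Partrec.nat_iff.1 hc.partrec)
  apply hh (Encodable.encode c)
  rw [Denumerable.ofNat_encode, hc']
  simp

theorem cl_sep : Cl {h | Sep h} := by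
  intro f hf
  have : ∃ e, ¬ ((0 ∈ Code.eval (Denumerable.ofNat Code e) e → f e = 1) ∧
      (1 ∈ Code.eval (Denumerable.ofNat Code e) e → f e = 0)) := by
    by_contra hno
    push Not at hno
    exact hf fun e => hno e
  obtain ⟨e, he⟩ := this
  refine ⟨e + 1, fun f' hf' h => he ?_⟩
  rw [← hf' e (by omega)]
  exact h e

theorem sep_not_computable {h : ℕ → ℕ} (hh : Sep h) : ¬ Computable h := by
  intro hc
  obtain ⟨e, he⟩ := not_sep_of_computable hc
  exact he (hh e)

theorem cl_singleton (f : ℕ → ℕ) : Cl {f} := by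
  intro g hg
  have : ∃ n, g n ≠ f n := by
    by_contra hno
    push Not at hno
    exact hg (funext hno)
  obtain ⟨n, hn⟩ := this
  refine ⟨n + 1, fun g' hg' h => hn ?_⟩
  rw [← hg' n (by omega), h]

theorem cl_empty : Cl ∅ := fun _ _ => ⟨0, fun _ _ h => h⟩

theorem computable_of_toNat {A : ℕ → Bool} (h : Computable (fun n => (A n).toNat)) :
    Computable A := by
  have := cEq h (Computable.const (α := ℕ) 1)
  refine this.of_eq fun n => ?_
  cases A n <;> simp

theorem tle_of_computable {A X : ℕ → Bool} (h : Computable A) : TLe A X := by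
  have hN : Computable Bool.toNat := (Primrec.dom_finite _).to_comp
  exact (TT.const (hN.comp h)).reduces X

theorem tle_refl (X : ℕ → Bool) : TLe X X := by
  have h2 : Computable₂ (fun (_ : ℕ) (b : Bool) => b.toNat) := by
    have hN : Computable Bool.toNat := (Primrec.dom_finite _).to_comp
    have := hN.comp (Computable.snd (α := ℕ) (β := Bool))
    exact this
  exact ((TT.query (Computable.id (α := ℕ))).map h2).reduces X

/-- Saturated bounding oracles of noncomputable hyperimmune-free degree which compute no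
diagonally noncomputable function; in particular they are neither high nor of PA degree. -/
structure Weak (X : ℕ → Bool) : Prop where
  sb : SaturatedBounding X
  not_high : ¬ High X
  not_pa : ¬ PADegree X
  not_comp : ¬ Computable X
  hif : ∀ h, Reduces h X → ∃ g : ℕ → ℕ, Computable g ∧ ∀ n, h n ≤ g n
  not_dnc : ∀ h, Reduces h X → ¬ DNC h

open Classical in
/-- an enumeration of the sets computable from some `Y i` -/
noncomputable def low (Y : ℕ → ℕ → Bool) (n : ℕ) : ℕ → Bool :=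
  if h : ∃ X : ℕ → Bool, ∀ k, (X k).toNat ∈ exφ n.unpair.1 (Y n.unpair.2) k then h.choose
  else fun _ => false

theorem low_spec (Y : ℕ → ℕ → Bool) {X : ℕ → Bool} {i : ℕ} (h : TLe X (Y i)) :
    ∃ n, X = low Y n := by
  obtain ⟨F, hF, hFX⟩ := h
  obtain ⟨e, he⟩ := functional_index hF
  refine ⟨Nat.pair e i, ?_⟩
  have hex : ∃ X : ℕ → Bool, ∀ k,
      (X k).toNat ∈ exφ (Nat.pair e i).unpair.1 (Y (Nat.pair e i).unpair.2) k := by
    refine ⟨X, fun k => ?_⟩
    rw [Nat.unpair_pair]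
    dsimp only
    rw [he]
    exact hFX k
  have key : ∀ W : ℕ → Bool, (∀ k,
      (W k).toNat ∈ exφ (Nat.pair e i).unpair.1 (Y (Nat.pair e i).unpair.2) k) → X = W := by
    intro W h1
    funext k
    have h2 := h1 k
    rw [Nat.unpair_pair] at h2
    dsimp only at h2
    rw [he] at h2
    have h3 : (X k).toNat = (W k).toNat := Part.mem_unique (hFX k) h2
    revert h3
    cases X k <;> cases W k <;> simp
  unfold low
  rw [dif_pos hex]
  exact key _ hex.choose_spec

theorem exists_weak (S : ℕ → Set (ℕ → ℕ)) (Y : ℕ → ℕ → Bool) (hcl : ∀ i, IsClosed (S i))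
    (hS : ∀ i, ∀ h ∈ S i, ¬ Computable h) :
    ∃ X : ℕ → Bool, Weak X ∧ (∀ i, ∀ h ∈ S i, ¬ Reduces h X) ∧ (∀ i, ¬ TLe X (Y i)) ∧
      ∀ i, ¬ Computable (Y i) → ¬ TLe (Y i) X := by
  classical
  let T : ℕ → Set (ℕ → ℕ) := fun n =>
    if n.unpair.1 = 0 then {h | DNC h} else if n.unpair.1 = 1 then {h | Sep h}
    else if n.unpair.1 = 2 then S n.unpair.2
    else if Computable (Y n.unpair.2) then ∅ else {fun k => (Y n.unpair.2 k).toNat}
  have hT : ∀ n, Cl (T n) ∧ ∀ h ∈ T n, ¬ Computable h := by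
    intro n
    simp only [T]
    split_ifs with h1 h2 h3 h4
    · exact ⟨cl_dnc, fun h hh => dnc_not_computable hh⟩
    · exact ⟨cl_sep, fun h hh => sep_not_computable hh⟩
    · exact ⟨cl_of_isClosed (hcl _), hS _⟩
    · exact ⟨cl_empty, fun h hh => absurd hh (Set.notMem_empty h)⟩
    · refine ⟨cl_singleton _, fun h hh hc => h4 ?_⟩
      rw [Set.mem_singleton_iff] at hh
      rw [hh] at hc
      exact computable_of_toNat hc
  obtain ⟨X, h1, h2, h3, h4⟩ := core T (fun n => (hT n).1) (fun n => (hT n).2) (low Y)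
  have g0 : ∀ h, Reduces h X → ¬ DNC h := by
    intro h hh hd
    apply h3 (Nat.pair 0 0) h hh
    simp only [T, Nat.unpair_pair, if_true]
    exact hd
  have g1 : ∀ h, Reduces h X → ¬ Sep h := by
    intro h hh hd
    apply h3 (Nat.pair 1 0) h hh
    simp only [T, Nat.unpair_pair, if_true]
    exact hd
  have g2 : ∀ i, ∀ h ∈ S i, ¬ Reduces h X := by
    intro i h hh hd
    apply h3 (Nat.pair 2 i) h hd
    simp only [T, Nat.unpair_pair]
    exact hh
  have g3 : ∀ i, ¬ Computable (Y i) → ¬ TLe (Y i) X := by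
    intro i hc hd
    apply h3 (Nat.pair 3 i) _ hd
    simp only [T, Nat.unpair_pair]
    rw [if_neg (by omega), if_neg (by omega), if_neg (by omega), if_neg hc]
    exact Set.mem_singleton _
  have g4 : ∀ i, ¬ TLe X (Y i) := by
    intro i hi
    obtain ⟨n, hn⟩ := low_spec Y hi
    exact h4 n hn
  refine ⟨X, ⟨h1, HighA.not_high_of_dominated X h2, not_pa g1, ?_, h2, g0⟩, g2, g4, g3⟩
  intro hc
  exact g4 0 (tle_of_computable hc)

/-- there is an uncountable set of such oracles which are pairwise Turing incomparable -/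
theorem exists_antichain : ∃ 𝒜 : Set (ℕ → Bool), ¬ 𝒜.Countable ∧ (∀ X ∈ 𝒜, Weak X) ∧
    ∀ X ∈ 𝒜, ∀ X' ∈ 𝒜, X ≠ X' → ¬ TLe X X' := by
  let P : Set (Set (ℕ → Bool)) := {𝒜 | (∀ X ∈ 𝒜, Weak X) ∧
    ∀ X ∈ 𝒜, ∀ X' ∈ 𝒜, X ≠ X' → ¬ TLe X X'}
  obtain ⟨m, hm⟩ := zorn_subset P (by
    intro c hc hch
    refine ⟨⋃₀ c, ⟨?_, ?_⟩, fun s hs => Set.subset_sUnion_of_mem hs⟩
    · rintro X ⟨s, hs, hX⟩
      exact (hc hs).1 X hX
    · rintro X ⟨s, hs, hX⟩ X' ⟨s', hs', hX'⟩ hne
      rcases hch.total hs hs' with h | h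
      · exact (hc hs').2 X (h hX) X' hX' hne
      · exact (hc hs).2 X hX X' (h hX') hne)
  refine ⟨m, fun hcount => ?_, hm.1.1, hm.1.2⟩
  obtain ⟨Y, hY⟩ : ∃ Y : ℕ → ℕ → Bool, ∀ X ∈ m, ∃ i, X = Y i := by
    rcases m.eq_empty_or_nonempty with h | h
    · exact ⟨fun _ _ => false, fun X hX => by rw [h] at hX; exact absurd hX (Set.notMem_empty X)⟩
    · obtain ⟨Y, hY⟩ := hcount.exists_eq_range h
      refine ⟨Y, fun X hX => ?_⟩
      rw [hY] at hX
      obtain ⟨i, hi⟩ := hX
      exact ⟨i, hi.symm⟩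
  obtain ⟨X, hX, -, h1, h2⟩ := exists_weak (fun _ => ∅) Y (fun _ => isClosed_empty)
    (fun _ h hh => absurd hh (Set.notMem_empty h))
  have hmem : insert X m ∈ P := by
    refine ⟨?_, ?_⟩
    · intro W hW
      rcases Set.mem_insert_iff.1 hW with rfl | hW
      · exact hX
      · exact hm.1.1 W hW
    · intro W hW W' hW' hne
      rcases Set.mem_insert_iff.1 hW with hWX | hWm
      · rcases Set.mem_insert_iff.1 hW' with hWX' | hWm'
        · exact absurd (hWX.trans hWX'.symm) hne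
        · obtain ⟨i, hi⟩ := hY W' hWm'
          rw [hWX, hi]
          exact h1 i
      · rcases Set.mem_insert_iff.1 hW' with hWX' | hWm'
        · obtain ⟨i, hi⟩ := hY W hWm
          rw [hWX', hi]
          exact h2 i (hi ▸ (hm.1.1 _ hWm).not_comp)
        · exact hm.1.2 W hWm W' hWm' hne
  have hsub := hm.2 hmem (Set.subset_insert X m)
  obtain ⟨i, hi⟩ := hY X (hsub (Set.mem_insert X m))
  apply h1 i
  rw [← hi]
  exact tle_refl X

end Pool.Agent.Y785.SB
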